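import Pool.Agent.W443.DX.Stm4

set_option autoImplicit false

open MvPolynomial

namespace Pool.Agent.W523.DX

theorem exists_sq_mul_squarefree {R : Type*} [CommRing R] [IsDomain R]
    [UniqueFactorizationMonoid R] (E : R) (hE : E ≠ 0) :
    ∃ m Δ : R, E = m ^ 2 * Δ ∧ Squarefree Δ := by
  induction E using UniqueFactorizationMonoid.induction_on_prime with
  | h₁ => exact absurd rfl hE
  | h₂ x hx => exact ⟨1, x, by ring, hx.squarefree⟩
  | h₃ a q ha hq ih =>
    obtain ⟨m, Δ, h, hs⟩ := ih ha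
    by_cases hd : q ∣ Δ
    · obtain ⟨Δ', rfl⟩ := hd
      refine ⟨q * m, Δ', by rw [h]; ring, hs.of_mul_right⟩
    · refine ⟨m, q * Δ, by rw [h]; ring, ?_⟩
      rw [squarefree_mul_iff]
      exact ⟨(hq.irreducible.isRelPrime_iff_not_dvd).2 hd, hq.irreducible.squarefree, hs⟩

theorem key {k : Type} [Field k] (h2 : (2 : k) ≠ 0) (f g : MvPolynomial (Fin 2) k)
    (hinj : ∀ H : MvPolynomial (Fin 2) k, aeval ![f, g] H = 0 → H = 0)
    (hsq : ∀ u Δ : MvPolynomial (Fin 2) k, Squarefree Δ → u ^ 2 = aeval ![f, g] Δ → IsUnit Δ)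
    (hdep : ∀ a b c : MvPolynomial (Fin 2) k, ∃ A B C : MvPolynomial (Fin 2) k,
      ¬ (A = 0 ∧ B = 0 ∧ C = 0) ∧
      aeval ![f, g] A * a + aeval ![f, g] B * b + aeval ![f, g] C * c = 0)
    (θ : MvPolynomial (Fin 2) k) :
    ∃ r s : MvPolynomial (Fin 2) k, r ≠ 0 ∧ aeval ![f, g] r * θ = aeval ![f, g] s := by
  obtain ⟨A, B, C, hne, h⟩ := hdep (θ ^ 2) θ 1
  set φ : MvPolynomial (Fin 2) k →ₐ[k] MvPolynomial (Fin 2) k := aeval ![f, g] with hφ
  by_cases hA : A = 0
  · subst hA
    simp only [map_zero, zero_mul, zero_add, mul_one] at h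
    by_cases hB : B = 0
    · subst hB
      simp only [map_zero, zero_mul, zero_add] at h
      exact absurd ⟨rfl, rfl, hinj C h⟩ hne
    · refine ⟨B, -C, hB, ?_⟩
      rw [map_neg]
      linear_combination h
  · have h2' : (2 : MvPolynomial (Fin 2) k) ≠ 0 := by
      intro h0
      apply h2
      have : (MvPolynomial.C (2 : k) : MvPolynomial (Fin 2) k) = 0 := by
        rw [← h0]; exact map_ofNat _ 2
      exact (MvPolynomial.C_eq_zero).1 this
    have h2A : (2 * A : MvPolynomial (Fin 2) k) ≠ 0 := mul_ne_zero h2' hA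
    set δ := 2 * φ A * θ + φ B with hδ
    have hδ2 : δ ^ 2 = φ (B ^ 2 - 4 * A * C) := by
      simp only [map_sub, map_mul, map_pow, map_ofNat]
      rw [hδ]
      linear_combination 4 * φ A * h
    by_cases hE : B ^ 2 - 4 * A * C = 0
    · rw [hE, map_zero] at hδ2
      have hδ0 : δ = 0 := by simpa using hδ2
      refine ⟨2 * A, -B, h2A, ?_⟩
      rw [map_neg, map_mul, map_ofNat]
      linear_combination hδ0
    · obtain ⟨m, Δ, hm, hs⟩ := exists_sq_mul_squarefree _ hE
      have hm0 : m ≠ 0 := by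
        rintro rfl
        apply hE
        rw [hm]; ring
      have hφm : φ m ≠ 0 := fun h0 => hm0 (hinj m h0)
      rw [hm, map_mul, map_pow] at hδ2
      have hdvd : φ m ∣ δ := by
        rw [← IsIntegrallyClosed.pow_dvd_pow_iff (n := 2) (by norm_num)]
        exact ⟨_, hδ2⟩
      obtain ⟨u, hu⟩ := hdvd
      have hu2 : u ^ 2 = φ Δ := by
        rw [hu, mul_pow] at hδ2
        exact mul_left_cancel₀ (pow_ne_zero 2 hφm) hδ2
      have hΔ := hsq u Δ hs hu2
      have hu' : IsUnit u := by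
        have : IsUnit (u ^ 2) := by
          rw [hu2]; exact hΔ.map φ
        exact (isUnit_pow_iff (by norm_num)).1 this
      obtain ⟨e, he, hue⟩ : ∃ e : k, IsUnit e ∧ u = MvPolynomial.C e := by
        have := (MvPolynomial.isUnit_iff_eq_C_of_isReduced).1 hu'
        obtain ⟨r, hr, h⟩ := this
        exact ⟨r, hr, h⟩
      refine ⟨2 * A, MvPolynomial.C e * m - B, h2A, ?_⟩
      have hC : φ (MvPolynomial.C e) = MvPolynomial.C e := by
        rw [hφ, MvPolynomial.aeval_C]; rfl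
      rw [map_sub, map_mul, map_mul, map_ofNat, hC, ← hue]
      linear_combination hu

open Pool.Agent.W443.DX in
theorem bir (h1 : S_SQR) (h2 : S_ALG) : S_BIR := by
  intro p _ f g hp hJ hD θ
  refine key ?_ f g (h2 p f g hJ) (h1 p f g hJ) hD θ
  intro h0
  have : ((2 : ℕ) : ZMod p) = 0 := by exact_mod_cast h0
  rw [ZMod.natCast_eq_zero_iff] at this
  exact hp ((Nat.prime_dvd_prime_iff_eq (Fact.out) Nat.prime_two).1 this)


end Pool.Agent.W523.DX
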